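import Pool.Agent.H.MP_ce2681_lc.C

set_option autoImplicit false

namespace Pool.Agent.Results.MP_ce2681_lc.Poly

open Pool.Agent.Lib.CX Pool.Agent.H.MP_ce2681_lc

theorem result (p : ℕ) (hp : 0 < p) : PT (coverTime p) :=
  haveI : NeZero p := ⟨hp.ne'⟩
  main p

end Pool.Agent.Results.MP_ce2681_lc.Poly
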